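import Pool.Agent.H343.QF.StL

set_option autoImplicit false
set_option linter.unusedSectionVars false

/-! # MP_9a852a_al, L6 : reconstruction of the group -/

namespace Pool.Agent.H21.QF

open Pool.Agent.H343.QF

lemma blk_map {G H : Type} [Group G] [Group H] (f : G →* H) (c p : G) (n : ℕ) :
    f (blk c p n) = blk (f c) (f p) n := by
  induction n with
  | zero => simp only [blk, map_one]
  | succ n ih => simp only [blk, map_mul, map_pow, ih]

lemma Wd_map {G H : Type} [Group G] [Group H] (f : G →* H) (B : ℕ) (a b : G) (k : ℕ) :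
    f (Wd B a b k) = Wd B (f a) (f b) k := by
  simp only [Wd, blk_map, map_pow]

lemma ltr_map {G H : Type} [Group G] [Group H] (f : G →* H) (a b : G) (k : ℕ) :
    f (ltr a b k) = ltr (f a) (f b) k := by
  unfold ltr
  split_ifs <;> simp only [map_inv]

/-- the coding relation holds in the group `GG B` -/
lemma codG (B : ℕ) (s : Fin 4) (i : ℕ) :
    Wd B (ga B) (gb B) i * ltr (ga B) (gb B) s = Wd B (ga B) (gb B) (cdR B s i) := by
  have hs := s.isLt
  have hm : rel B (eeB B) xa xb (2 * (4 * i + (s : ℕ)) + 1) ∈ KI B (eeB B) :=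
    Subgroup.subset_normalClosure ⟨_, rfl⟩
  have e1 : ¬ (2 * (4 * i + (s : ℕ)) + 1) % 2 = 0 := by omega
  have e2 : (2 * (4 * i + (s : ℕ)) + 1) / 2 = 4 * i + (s : ℕ) := by omega
  have e3 : (4 * i + (s : ℕ)) / 4 = i := by omega
  have e4 : (4 * i + (s : ℕ)) % 4 = (s : ℕ) % 4 := by omega
  rw [rel, if_neg e1, e2, e3] at hm
  have e5 : ltr xa xb (4 * i + (s : ℕ)) = ltr xa xb (s : ℕ) := by
    simp only [ltr, e4]
  rw [e5] at hm
  have h1 := (QuotientGroup.eq_one_iff (N := KI B (eeB B)) _).2 hm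
  have h2 : (QuotientGroup.mk' (KI B (eeB B)))
      (Wd B xa xb (eeB B (2 * (4 * i + (s : ℕ)) + 1)) * (Wd B xa xb i * ltr xa xb (s : ℕ))⁻¹)
        = 1 := h1
  rw [map_mul, map_inv, map_mul, Wd_map, Wd_map, ltr_map, mul_inv_eq_one] at h2
  exact h2.symm

/-- simultaneous multiplication by words -/
lemma walk (B : ℕ) {K : Type} [Group K] (b r : K) (h : RestR B b r) (w : F2) :
    ∀ i : ℕ, ∃ j : ℕ,
      Wd B (ga B) (gb B) i * (QuotientGroup.mk' (KI B (eeB B)) w) = Wd B (ga B) (gb B) j ∧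
      Wd B r b i * FreeGroup.lift ![r, b] w = Wd B r b j := by
  induction w using FreeGroup.induction_on with
  | C1 =>
    intro i
    exact ⟨i, by rw [map_one, mul_one], by rw [map_one, mul_one]⟩
  | of x =>
    intro i
    fin_cases x
    · refine ⟨cdR B ((0 : Fin 4) : ℕ) i, ?_, ?_⟩
      · rw [← codG B 0 i]; rfl
      · rw [← h.cod 0 i, FreeGroup.lift_apply_of]; rfl
    · refine ⟨cdR B ((2 : Fin 4) : ℕ) i, ?_, ?_⟩
      · rw [← codG B 2 i]; rfl
      · rw [← h.cod 2 i, FreeGroup.lift_apply_of]; rfl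
  | inv_of x _ =>
    intro i
    fin_cases x
    · refine ⟨cdR B ((1 : Fin 4) : ℕ) i, ?_, ?_⟩
      · rw [← codG B 1 i]; rfl
      · rw [← h.cod 1 i, map_inv, FreeGroup.lift_apply_of]; rfl
    · refine ⟨cdR B ((3 : Fin 4) : ℕ) i, ?_, ?_⟩
      · rw [← codG B 3 i]; rfl
      · rw [← h.cod 3 i, map_inv, FreeGroup.lift_apply_of]; rfl
  | mul x y hx hy =>
    intro i
    obtain ⟨j, h1, h2⟩ := hx i
    obtain ⟨k, h3, h4⟩ := hy j
    exact ⟨k, by rw [map_mul, ← mul_assoc, h1, h3], by rw [map_mul, ← mul_assoc, h2, h4]⟩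

theorem iso : S_iso := by
  intro B K _ b r h
  have hker : (FreeGroup.lift ![r, b] : F2 →* K).ker = KI B (eeB B) := by
    ext w
    obtain ⟨j, h1, h2⟩ := walk B b r h w 0
    rw [MonoidHom.mem_ker]
    constructor
    · intro hw
      rw [hw, mul_one] at h2
      have h3 : Wd B (ga B) (gb B) 0 = Wd B (ga B) (gb B) j := (h.eq 0 j).1 h2
      rw [← h1, eq_comm, mul_eq_left] at h3
      exact (QuotientGroup.eq_one_iff w).1 h3
    · intro hw
      have h4 : QuotientGroup.mk' (KI B (eeB B)) w = 1 := (QuotientGroup.eq_one_iff w).2 hw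
      rw [h4, mul_one] at h1
      have h3 : Wd B r b 0 = Wd B r b j := (h.eq 0 j).2 h1
      rw [← h2, eq_comm, mul_eq_left] at h3
      exact h3
  have hsur : Function.Surjective (FreeGroup.lift ![r, b] : F2 →* K) := by
    intro g
    obtain ⟨k, hk⟩ := h.sur g
    refine ⟨Wd B xa xb k, ?_⟩
    rw [Wd_map, FreeGroup.lift_apply_of, FreeGroup.lift_apply_of, hk]
    rfl
  exact ⟨(QuotientGroup.quotientKerEquivOfSurjective _ hsur).symm.trans
    (QuotientGroup.quotientMulEquivOfEq hker)⟩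

end Pool.Agent.H21.QF
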